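import Mathlib

set_option autoImplicit false
open Filter

namespace Pool.Agent.Results.MP_7fe555_nt.SmallLcm

/-- The least common multiple of the window `a i, a (i+1), …, a (i+k-1)` of `k` consecutive terms. -/
def windowLcm (a : ℕ → ℕ) (i k : ℕ) : ℕ := (Finset.range k).lcm (fun j => a (i + j))

/-- `F(A,x,k)`: the number of windows of `k` consecutive terms with least common multiple below `x`. -/
noncomputable def F (a : ℕ → ℕ) (x : ℝ) (k : ℕ) : ℕ := {i : ℕ | (windowLcm a i k : ℝ) < x}.ncard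

theorem window3 (a : ℕ → ℕ) (i : ℕ) :
    windowLcm a i 3 = Nat.lcm (Nat.lcm (a i) (a (i + 1))) (a (i + 2)) := by
  unfold windowLcm
  rw [Finset.range_add_one, Finset.lcm_insert, Finset.range_add_one, Finset.lcm_insert,
    Finset.range_add_one, Finset.lcm_insert]
  simp only [Finset.range_zero, Finset.lcm_empty]
  have h1 : GCDMonoid.lcm (a (i + 0)) 1 = a i := by
    change Nat.lcm (a i) 1 = a i
    exact Nat.lcm_one_right _
  rw [h1]
  change Nat.lcm (a (i + 2)) (Nat.lcm (a (i + 1)) (a i)) = _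
  rw [Nat.lcm_comm, Nat.lcm_comm (a (i + 1))]

theorem key_nat (a b c : ℕ) (ha : 0 < a) (hab : a < b) (hbc : b < c) :
    a * b * c ≤ (c - a) ^ 3 * Nat.lcm (Nat.lcm a b) c := by
  set M := Nat.lcm a b with hM
  have h1 : Nat.gcd a b * M = a * b := Nat.gcd_mul_lcm a b
  have h2 : Nat.gcd M c * Nat.lcm M c = M * c := Nat.gcd_mul_lcm M c
  have hb : 0 < b := by omega
  have hc : 0 < c := by omega
  have h3 : Nat.gcd M c ≤ Nat.gcd a c * Nat.gcd b c := by
    apply Nat.le_of_dvd (Nat.mul_pos (Nat.gcd_pos_of_pos_left _ ha) (Nat.gcd_pos_of_pos_left _ hb))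
    have h4 : Nat.gcd M c ∣ Nat.gcd (a * b) c :=
      Nat.gcd_dvd_gcd_of_dvd_left c (Nat.lcm_dvd_mul a b)
    refine h4.trans ?_
    rw [Nat.gcd_comm, Nat.gcd_comm a c, Nat.gcd_comm b c]
    exact Nat.gcd_mul_right_dvd_mul_gcd c a b
  have g1 : Nat.gcd a b ≤ c - a := by
    have : Nat.gcd a b ≤ b - a := Nat.le_of_dvd (by omega)
      (Nat.dvd_sub (Nat.gcd_dvd_right a b) (Nat.gcd_dvd_left a b))
    omega
  have g2 : Nat.gcd a c ≤ c - a := Nat.le_of_dvd (by omega)
      (Nat.dvd_sub (Nat.gcd_dvd_right a c) (Nat.gcd_dvd_left a c))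
  have g3 : Nat.gcd b c ≤ c - a := by
    have : Nat.gcd b c ≤ c - b := Nat.le_of_dvd (by omega)
      (Nat.dvd_sub (Nat.gcd_dvd_right b c) (Nat.gcd_dvd_left b c))
    omega
  calc a * b * c = Nat.gcd a b * (Nat.gcd M c * Nat.lcm M c) := by rw [h2, ← h1]; ring
    _ ≤ (c - a) * ((Nat.gcd a c * Nat.gcd b c) * Nat.lcm M c) :=
        Nat.mul_le_mul g1 (Nat.mul_le_mul_right _ h3)
    _ ≤ (c - a) * (((c - a) * (c - a)) * Nat.lcm M c) :=
        Nat.mul_le_mul_left _ (Nat.mul_le_mul_right _ (Nat.mul_le_mul g2 g3))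
    _ = (c - a) ^ 3 * Nat.lcm M c := by ring

theorem key_real (a b c : ℕ) (ha : 0 < a) (hab : a < b) (hbc : b < c) (w : ℝ) (hw : 0 < w)
    (hw3 : w ^ 3 * (Nat.lcm (Nat.lcm a b) c : ℝ) = 1) :
    w ≤ 2 * (Real.log c - Real.log a) := by
  have h := key_nat a b c ha hab hbc
  set L := Nat.lcm (Nat.lcm a b) c with hL
  have ha' : (0 : ℝ) < a := by exact_mod_cast ha
  have hab' : (a : ℝ) < b := by exact_mod_cast hab
  have hbc' : (b : ℝ) < c := by exact_mod_cast hbc
  have h' : (a : ℝ) * b * c ≤ (c - a) ^ 3 * L := by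
    have : ((a * b * c : ℕ) : ℝ) ≤ (((c - a) ^ 3 * L : ℕ) : ℝ) := by exact_mod_cast h
    rw [Nat.cast_mul, Nat.cast_mul, Nat.cast_mul, Nat.cast_pow, Nat.cast_sub (by omega)] at this
    exact this
  have hLpos : (1 : ℝ) ≤ L := by
    have : 0 < L := Nat.lcm_pos (Nat.lcm_pos ha (by omega)) (by omega)
    exact_mod_cast this
  have hw1 : w ≤ 1 := by
    by_contra hcon
    push Not at hcon
    have : 1 < w ^ 3 := one_lt_pow₀ hcon (by norm_num)
    nlinarith
  have hu : w * a ≤ c - a := by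
    have h3 : (w * a) ^ 3 ≤ (c - a) ^ 3 := by
      have h4 : (a : ℝ) ^ 3 ≤ a * b * c := by
        have : (a : ℝ) * a ≤ b * c := mul_le_mul hab'.le (hab'.le.trans hbc'.le) ha'.le (by linarith)
        nlinarith
      calc (w * a) ^ 3 = w ^ 3 * a ^ 3 := by ring
        _ ≤ w ^ 3 * ((c - a) ^ 3 * L) := by
            apply mul_le_mul_of_nonneg_left (h4.trans h') (by positivity)
        _ = (c - a) ^ 3 * (w ^ 3 * L) := by ring
        _ = (c - a) ^ 3 := by rw [hw3, mul_one]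
    exact le_of_pow_le_pow_left₀ (by norm_num) (by linarith) h3
  have hlog : Real.log c - Real.log a = Real.log (c / a) := by
    rw [Real.log_div (by linarith) (by linarith)]
  rw [hlog]
  have hc' : (0 : ℝ) < c := by linarith
  have h5 : 1 - ((c : ℝ) / a)⁻¹ ≤ Real.log (c / a) :=
    Real.one_sub_inv_le_log_of_pos (by positivity)
  have h6 : 1 - ((c : ℝ) / a)⁻¹ = (c - a) / c := by
    field_simp
  rw [h6] at h5
  have h7 : w / 2 ≤ (c - a) / (c : ℝ) := by
    rw [le_div_iff₀ (by linarith)]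
    nlinarith
  linarith

theorem geom_bound (J : Finset ℕ) (w : ℝ) (hw : 0 ≤ w) (h : ∀ j ∈ J, (1 / 2 : ℝ) ^ j ≤ w) :
    ∑ j ∈ J, (1 / 2 : ℝ) ^ j ≤ 2 * w := by
  rcases J.eq_empty_or_nonempty with rfl | hJ
  · simpa using hw
  · set j0 := J.min' hJ with hj0
    set j1 := J.max' hJ with hj1
    have hsub : J ⊆ Finset.Ico j0 (j1 + 1) := by
      intro j hj
      rw [Finset.mem_Ico]
      exact ⟨J.min'_le j hj, Nat.lt_succ_of_le (J.le_max' j hj)⟩
    calc ∑ j ∈ J, (1 / 2 : ℝ) ^ j ≤ ∑ j ∈ Finset.Ico j0 (j1 + 1), (1 / 2 : ℝ) ^ j :=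
          Finset.sum_le_sum_of_subset_of_nonneg hsub fun _ _ _ => by positivity
      _ ≤ (1 / 2 : ℝ) ^ j0 / (1 - 1 / 2) :=
          geom_sum_Ico_le_of_lt_one (by norm_num) (by norm_num)
      _ = 2 * (1 / 2 : ℝ) ^ j0 := by ring
      _ ≤ 2 * w := by
          have := h j0 (J.min'_mem hJ)
          linarith

section
variable (a : ℕ → ℕ) (ha : StrictMono a) (hpos : ∀ i, 0 < a i)

/-- the windows of three consecutive terms with small lcm -/
theorem finite_S (ha : StrictMono a) (hpos : ∀ i, 0 < a i) (x : ℝ) :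
    {i : ℕ | (windowLcm a i 3 : ℝ) < x}.Finite := by
  apply (Set.finite_lt_nat ⌈x⌉₊).subset
  intro i hi
  have h1 : (windowLcm a i 3 : ℝ) < x := hi
  have h2 : a i ≤ windowLcm a i 3 := by
    rw [window3]
    exact (Nat.le_of_dvd (Nat.lcm_pos (Nat.lcm_pos (hpos _) (hpos _)) (hpos _))
      ((Nat.dvd_lcm_left _ _).trans (Nat.dvd_lcm_left _ _)))
  have h3 : i ≤ a i := ha.le_apply
  change i < ⌈x⌉₊
  rw [Nat.lt_ceil]
  have h4 : (i : ℝ) ≤ windowLcm a i 3 := by exact_mod_cast h3.trans h2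
  linarith

include ha hpos

theorem sum_bound (X : ℝ) (hX : 1 ≤ X) (w : ℕ → ℝ) (hw : ∀ i, 0 < w i)
    (hw3 : ∀ i, w i ^ 3 * (windowLcm a i 3 : ℝ) = 1) (S : Finset ℕ)
    (hS : ∀ i ∈ S, (windowLcm a i 3 : ℝ) < X) :
    ∑ i ∈ S, w i ≤ 4 * Real.log X := by
  classical
  have hex : ∃ i, X ≤ (a (i + 2) : ℝ) := by
    obtain ⟨i, hi⟩ := exists_nat_ge X
    refine ⟨i, hi.trans ?_⟩
    have : i + 2 ≤ a (i + 2) := ha.le_apply
    exact_mod_cast (by omega : i ≤ a (i + 2))
  set n := Nat.find hex with hn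
  have hn1 : X ≤ (a (n + 2) : ℝ) := Nat.find_spec hex
  have hsub : S ⊆ Finset.range n := by
    intro i hi
    rw [Finset.mem_range]
    by_contra hcon
    push Not at hcon
    have h1 : a (n + 2) ≤ a (i + 2) := ha.monotone (by omega)
    have h2 : a (i + 2) ≤ windowLcm a i 3 := by
      rw [window3]
      exact (Nat.le_of_dvd (Nat.lcm_pos (Nat.lcm_pos (hpos _) (hpos _)) (hpos _))
        (Nat.dvd_lcm_right _ _))
    have h3 := hS i hi
    have h4 : (a (n + 2) : ℝ) ≤ windowLcm a i 3 := by exact_mod_cast h1.trans h2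
    linarith
  have hterm : ∀ i, w i ≤ 2 * (Real.log (a (i + 2)) - Real.log (a i)) := by
    intro i
    apply key_real (a i) (a (i + 1)) (a (i + 2)) (hpos i) (ha (by omega)) (ha (by omega)) (w i) (hw i)
    rw [← window3]
    exact hw3 i
  have hlogm : ∀ i, 0 ≤ Real.log (a i) := fun i => Real.log_natCast_nonneg _
  have htel : ∑ i ∈ Finset.range n, 2 * (Real.log (a (i + 2)) - Real.log (a i)) ≤ 4 * Real.log X := by
    rcases Nat.eq_zero_or_pos n with h0 | h0
    · rw [h0, Finset.range_zero, Finset.sum_empty]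
      have := Real.log_nonneg hX
      linarith
    · have h1 : ∀ i, 2 * (Real.log (a (i + 2)) - Real.log (a i)) =
          (2 * (Real.log (a (i + 1 + 1)) + Real.log (a (i + 1)))) -
            (2 * (Real.log (a (i + 1)) + Real.log (a i))) := by
        intro i
        rw [show i + 1 + 1 = i + 2 by ring]
        ring
      rw [Finset.sum_congr rfl fun i _ => h1 i,
        Finset.sum_range_sub (f := fun i => 2 * (Real.log (a (i + 1)) + Real.log (a i)))]
      have h2 : (a (n + 1) : ℝ) < X := by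
        have := Nat.find_min hex (show n - 1 < n by omega)
        push Not at this
        rwa [show n - 1 + 2 = n + 1 by omega] at this
      have h3 : Real.log (a (n + 1)) ≤ Real.log X :=
        Real.log_le_log (by exact_mod_cast hpos _) h2.le
      have h4 : Real.log (a n) ≤ Real.log X := by
        refine le_trans (Real.log_le_log (by exact_mod_cast hpos _) ?_) h3
        exact_mod_cast (ha.monotone (by omega : n ≤ n + 1))
      have h5 := hlogm (0 + 1)
      have h6 := hlogm 0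
      linarith
  calc ∑ i ∈ S, w i ≤ ∑ i ∈ Finset.range n, w i :=
        Finset.sum_le_sum_of_subset_of_nonneg hsub fun i _ _ => (hw i).le
    _ ≤ ∑ i ∈ Finset.range n, 2 * (Real.log (a (i + 2)) - Real.log (a i)) :=
        Finset.sum_le_sum fun i _ => hterm i
    _ ≤ _ := htel

theorem dyadic (m : ℕ) :
    ∑ j ∈ Finset.range (m + 1), (F a (8 ^ j) 3 : ℝ) * (1 / 2) ^ j ≤ 24 * m * Real.log 2 := by
  classical
  -- weights
  set w : ℕ → ℝ := fun i => ((windowLcm a i 3 : ℝ)) ^ (-(1 / 3 : ℝ)) with hwdef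
  have hLpos : ∀ i, (0 : ℝ) < windowLcm a i 3 := by
    intro i
    rw [window3]
    exact_mod_cast (Nat.lcm_pos (Nat.lcm_pos (hpos _) (hpos _)) (hpos _))
  have hw : ∀ i, 0 < w i := fun i => Real.rpow_pos_of_pos (hLpos i) _
  have hw3 : ∀ i, w i ^ 3 * (windowLcm a i 3 : ℝ) = 1 := by
    intro i
    have h1 : w i ^ 3 = ((windowLcm a i 3 : ℝ))⁻¹ := by
      rw [hwdef]
      simp only
      rw [← Real.rpow_natCast, ← Real.rpow_mul (hLpos i).le]
      norm_num
      rw [Real.rpow_neg_one]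
    rw [h1, inv_mul_cancel₀ (hLpos i).ne']
  have hfin : ∀ x : ℝ, {i : ℕ | (windowLcm a i 3 : ℝ) < x}.Finite := finite_S a ha hpos
  set S : ℕ → Finset ℕ := fun j => (hfin (8 ^ j)).toFinset with hSdef
  have hSmem : ∀ j i, i ∈ S j ↔ (windowLcm a i 3 : ℝ) < 8 ^ j := by
    intro j i
    rw [hSdef]
    simp only
    rw [Set.Finite.mem_toFinset]
    rfl
  have hF : ∀ j, F a (8 ^ j) 3 = (S j).card := by
    intro j
    unfold F
    rw [Set.ncard_eq_toFinset_card _ (hfin (8 ^ j))]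
  have hsw : ∀ i j, (windowLcm a i 3 : ℝ) < 8 ^ j → (1 / 2 : ℝ) ^ j ≤ w i := by
    intro i j hij
    have h1 : ((1 / 2 : ℝ) ^ j) ^ 3 ≤ (w i) ^ 3 := by
      have h2 := hw3 i
      have h3 : ((1 / 2 : ℝ) ^ j) ^ 3 * 8 ^ j = 1 := by
        rw [← pow_mul, mul_comm j 3, pow_mul, ← mul_pow]
        norm_num
      have h4 : (0 : ℝ) < w i ^ 3 := by have := hw i; positivity
      have h8 : (0 : ℝ) < 8 ^ j := by positivity
      by_contra hcon
      push Not at hcon
      have h5 : w i ^ 3 * (windowLcm a i 3 : ℝ) < ((1 / 2 : ℝ) ^ j) ^ 3 * 8 ^ j :=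
        mul_lt_mul'' hcon hij h4.le (hLpos i).le
      rw [h2, h3] at h5
      exact lt_irrefl _ h5
    exact le_of_pow_le_pow_left₀ (by norm_num) (hw i).le h1
  have hmono : ∀ j, j ≤ m → S j ⊆ S m := by
    intro j hj i hi
    rw [hSmem] at hi ⊢
    exact hi.trans_le (pow_le_pow_right₀ (by norm_num) hj)
  calc ∑ j ∈ Finset.range (m + 1), (F a (8 ^ j) 3 : ℝ) * (1 / 2) ^ j
      = ∑ j ∈ Finset.range (m + 1), ∑ i ∈ S m,
          (if (windowLcm a i 3 : ℝ) < 8 ^ j then (1 / 2 : ℝ) ^ j else 0) := by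
        apply Finset.sum_congr rfl
        intro j hj
        rw [Finset.mem_range] at hj
        rw [← Finset.sum_filter, Finset.sum_const, nsmul_eq_mul, hF]
        congr 2
        congr 1
        ext i
        rw [Finset.mem_filter, hSmem j i]
        constructor
        · intro h
          exact ⟨hmono j (by omega) ((hSmem j i).2 h), h⟩
        · exact fun h => h.2
    _ = ∑ i ∈ S m, ∑ j ∈ Finset.range (m + 1),
          (if (windowLcm a i 3 : ℝ) < 8 ^ j then (1 / 2 : ℝ) ^ j else 0) := Finset.sum_comm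
    _ ≤ ∑ i ∈ S m, 2 * w i := by
        apply Finset.sum_le_sum
        intro i _
        rw [← Finset.sum_filter]
        apply geom_bound _ _ (hw i).le
        intro j hj
        rw [Finset.mem_filter] at hj
        exact hsw i j hj.2
    _ = 2 * ∑ i ∈ S m, w i := by rw [Finset.mul_sum]
    _ ≤ 2 * (4 * Real.log (8 ^ m)) := by
        apply mul_le_mul_of_nonneg_left _ (by norm_num)
        apply sum_bound a ha hpos (8 ^ m) (one_le_pow₀ (by norm_num)) w hw hw3
        intro i hi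
        exact (hSmem m i).1 hi
    _ = 24 * m * Real.log 2 := by
        rw [Real.log_pow, show (8 : ℝ) = 2 ^ 3 by norm_num, Real.log_pow]
        push_cast
        ring

theorem freq : ∃ᶠ x : ℝ in atTop, (F a x 3 : ℝ) ≤ 17 * x ^ (1 / 3 : ℝ) := by
  intro hev
  rw [eventually_atTop] at hev
  obtain ⟨x0, hx0⟩ := hev
  obtain ⟨j0, hj0⟩ : ∃ j0 : ℕ, x0 ≤ 8 ^ j0 := by
    obtain ⟨j0, h⟩ := pow_unbounded_of_one_lt x0 (show (1 : ℝ) < 8 by norm_num)
    exact ⟨j0, h.le⟩
  have hbig : ∀ j, j0 ≤ j → 17 ≤ (F a (8 ^ j) 3 : ℝ) * (1 / 2) ^ j := by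
    intro j hj
    have h1 := hx0 (8 ^ j) (hj0.trans (pow_le_pow_right₀ (by norm_num) hj))
    push Not at h1
    have h2 : ((8 : ℝ) ^ j) ^ (1 / 3 : ℝ) = 2 ^ j := by
      have : ((8 : ℝ) ^ j) = ((2 : ℝ) ^ j) ^ (3 : ℝ) := by
        rw [show (8 : ℝ) = 2 ^ 3 by norm_num, ← pow_mul, mul_comm, pow_mul]
        norm_cast
      rw [this, ← Real.rpow_mul (by positivity)]
      norm_num
    rw [h2] at h1
    have h3 : (2 : ℝ) ^ j * (1 / 2) ^ j = 1 := by rw [← mul_pow]; norm_num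
    have h4 : (0 : ℝ) < (1 / 2) ^ j := by positivity
    nlinarith
  have hsum : ∀ m : ℕ, 17 * (m : ℝ) ≤ 24 * ((j0 + m : ℕ) : ℝ) * Real.log 2 := by
    intro m
    refine le_trans ?_ (dyadic a ha hpos (j0 + m))
    have h1 : Finset.Ico j0 (j0 + m) ⊆ Finset.range (j0 + m + 1) := by
      intro j hj
      rw [Finset.mem_Ico] at hj
      rw [Finset.mem_range]
      omega
    refine le_trans ?_ (Finset.sum_le_sum_of_subset_of_nonneg h1 fun j _ _ => by positivity)
    have h2 : ∑ j ∈ Finset.Ico j0 (j0 + m), (17 : ℝ) = 17 * m := by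
      rw [Finset.sum_const, Nat.card_Ico, nsmul_eq_mul]
      have : j0 + m - j0 = m := by omega
      rw [this]; ring
    rw [← h2]
    apply Finset.sum_le_sum
    intro j hj
    rw [Finset.mem_Ico] at hj
    exact hbig j hj.1
  have hl := Real.log_two_lt_d9
  obtain ⟨m, hm⟩ := exists_nat_gt (100 * (j0 : ℝ))
  have h := hsum m
  push_cast at h
  have hm0 : (0 : ℝ) ≤ m := by positivity
  have hj0' : (0 : ℝ) ≤ j0 := by positivity
  nlinarith

end

/-- For every strictly increasing sequence of positive integers, `F(A,x,3) ≤ 17 x^{1/3}` for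
arbitrarily large `x`; hence `liminf F(A,x,3)/(x^{1/3} ln x) = 0`, and no bound
`F(A,x,3) > c x^{1/3} ln x` with `c > 0` holds for all sufficiently large `x`. -/
theorem result (a : ℕ → ℕ) (ha : StrictMono a) (hpos : ∀ i, 0 < a i) :
    (∃ᶠ x : ℝ in atTop, (F a x 3 : ℝ) ≤ 17 * x ^ (1 / 3 : ℝ)) ∧
    liminf (fun x : ℝ => (((F a x 3 : ℝ) / (x ^ (1 / 3 : ℝ) * Real.log x) : ℝ) : EReal)) atTop = 0 ∧
    ¬ ∃ c : ℝ, 0 < c ∧ ∀ᶠ x : ℝ in atTop, c * x ^ (1 / 3 : ℝ) * Real.log x < F a x 3 := by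
  have h1 := freq a ha hpos
  have h2 : ∀ c : ℝ, 0 < c → ∃ᶠ x : ℝ in atTop, 1 < x ∧
      (F a x 3 : ℝ) ≤ c * x ^ (1 / 3 : ℝ) * Real.log x := by
    intro c hc
    have h3 : ∀ᶠ x : ℝ in atTop, 17 / c ≤ Real.log x := Real.tendsto_log_atTop.eventually_ge_atTop _
    refine (h1.and_eventually (h3.and (eventually_gt_atTop 1))).mono ?_
    rintro x ⟨hx1, hx2, hx3⟩
    refine ⟨hx3, hx1.trans ?_⟩
    have h4 : (0 : ℝ) < x ^ (1 / 3 : ℝ) := Real.rpow_pos_of_pos (by linarith) _
    rw [div_le_iff₀ hc] at hx2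
    nlinarith
  refine ⟨h1, ?_, ?_⟩
  · apply le_antisymm
    · by_contra hcon
      push Not at hcon
      obtain ⟨r, hr1, hr2⟩ := EReal.lt_iff_exists_real_btwn.1 hcon
      have hr0 : 0 < r := by exact_mod_cast hr1
      have h3 := eventually_lt_of_lt_liminf hr2
      obtain ⟨x, ⟨hx1, hx2⟩, hx3⟩ := ((h2 r hr0).and_eventually h3).exists
      have h4 : (0 : ℝ) < x ^ (1 / 3 : ℝ) * Real.log x :=
        mul_pos (Real.rpow_pos_of_pos (by linarith) _) (Real.log_pos hx1)
      have h5 : r < (F a x 3 : ℝ) / (x ^ (1 / 3 : ℝ) * Real.log x) := by exact_mod_cast hx3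
      rw [lt_div_iff₀ h4] at h5
      linarith
    · apply le_liminf_of_le
      · isBoundedDefault
      · filter_upwards [eventually_gt_atTop (1 : ℝ)] with x hx
        have h4 : (0 : ℝ) < x ^ (1 / 3 : ℝ) * Real.log x :=
          mul_pos (Real.rpow_pos_of_pos (by linarith) _) (Real.log_pos hx)
        have : (0 : ℝ) ≤ (F a x 3 : ℝ) / (x ^ (1 / 3 : ℝ) * Real.log x) := by positivity
        exact_mod_cast this
  · rintro ⟨c, hc, hev⟩
    obtain ⟨x, ⟨_, hx2⟩, hx3⟩ := ((h2 c hc).and_eventually hev).exists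
    linarith

end Pool.Agent.Results.MP_7fe555_nt.SmallLcm
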